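import Pool.Agent.X9.EV.Main

set_option autoImplicit false

/-!
# Torsion in the class groups of the fields generated by roots of Dickson polynomials

Let `n ≥ 3` be odd and `ε > 0`. The Dickson polynomial `D_n(x, a)` (Mathlib's `dickson 1 a n`) is
given by `D_n(u + v, u v) = u ^ n + v ^ n`. There is a constant `C` depending only on `n` and `ε`
such that for every `l ≥ 1`, all integers `a`, `b` with `b ^ 2 ≠ 4 a ^ n` and with `3 ∤ n` or
`a = 0`, and every number field `K = ℚ(α)` of degree `n` with `D_n(α, a) = b`, that is, every field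
of degree `n` generated by `u ^ (1/n) + v ^ (1/n)` with `u + v = b`, `u v = a ^ n`,
`|Cl_K[l]| ≤ C * log (|a| + |b| + 2) * |disc K| ^ (1/2 - 1/(2 l (n-1)) + ε)`.
The exponent is the one that Ellenberg and Venkatesh prove for all fields of degree `n` under the
generalised Riemann hypothesis.
-/

namespace Pool.Agent.Results.MP_695920_nt.DicksonFields

open Polynomial NumberField

theorem result (n : ℕ) (hn : 3 ≤ n) (hodd : Odd n) (ε : ℝ) (hε : 0 < ε) :
    ∃ C : ℝ, 0 < C ∧ ∀ l : ℕ, 1 ≤ l → ∀ a b : ℤ, (a = 0 ∨ ¬ 3 ∣ n) → b ^ 2 ≠ 4 * a ^ n →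
    ∀ (K : Type) [Field K] [NumberField K], Module.finrank ℚ K = n → ∀ α : K,
    IntermediateField.adjoin ℚ {α} = ⊤ → (dickson 1 (a : K) n).eval α = b →
    (Nat.card {c : ClassGroup (𝓞 K) // c ^ l = 1} : ℝ) ≤
      C * Real.log (|(a : ℝ)| + |(b : ℝ)| + 2) *
        |(discr K : ℝ)| ^ (1 / 2 - 1 / (2 * (l : ℝ) * (n - 1)) + ε) := by
  obtain ⟨C, hC0, hC⟩ := Pool.Agent.X9.EV.main n hn hodd ε hε
  exact ⟨C, hC0, fun l hl a b h3 hab K _ _ hK α hα h0 => (hC l hl K hK α hα).2 a b h3 hab h0⟩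

end Pool.Agent.Results.MP_695920_nt.DicksonFields
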