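import Pool.Agent.X9.EV.EvenPure

set_option autoImplicit false

/-!
# Torsion in the class groups of pure fields of even degree

Let `n ≥ 4` be even, let `k, c ≥ 1` be integers and `ε > 0`.

1. There is a constant `C` such that for all `l ≥ 1` and all pure fields `K_i = ℚ(α_i)`
   (`1 ≤ i ≤ k`) of degree `n`, `α_i ^ n = r_i ∈ ℚ`, for which `(-1) ^ (k + 1) c r_1 ⋯ r_k` is the
   square of a rational number, the product of the numbers `|Cl_{K_i}[l]|` is at most
   `C (D_1 ⋯ D_k) ^ (1/2 + ε) D ^ (- 1/(2 l (n-1)))`, `D_i = |disc K_i|`, `D = min D_i`.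
   For example `k = 2`, `c = 1`: the fields `ℚ(r ^ (1/n))` and `ℚ((- r) ^ (1/n))`; or `k = 3`, `c = 1`:
   the fields `ℚ(r ^ (1/n))`, `ℚ(s ^ (1/n))` and `ℚ((r s) ^ (1/n))`.
2. The case `k = 1`: for every pure field of degree `n` with `α ^ n = c s ^ 2`, `s ∈ ℚ` (that is, with
   `√c = ± α ^ (n/2) / s`) one has `|Cl_K[l]| ≤ C |disc K| ^ (1/2 - 1/(2 l (n-1)) + ε)`, the bound
   known for all fields only under GRH.

The proof uses the primes `p ≡ -1` modulo `8 c n`. They are the norms of ideals of `K_i` as soon as `r_i`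
is a square modulo `p`, and this is the case for one of the `i`.
-/

namespace Pool.Agent.Results.MP_695920_nt.EvenPureFieldFamilies

open NumberField

theorem result (n : ℕ) (hn : 4 ≤ n) (heven : Even n) (c : ℕ) (hc : 1 ≤ c) (ε : ℝ) (hε : 0 < ε) :
    (∀ k : ℕ, 1 ≤ k → ∃ C : ℝ, 0 < C ∧ ∀ l : ℕ, 1 ≤ l → ∀ (K : Fin k → Type) [∀ i, Field (K i)]
      [∀ i, NumberField (K i)], (∀ i, Module.finrank ℚ (K i) = n) → ∀ α : ∀ i, K i,
      (∀ i, IntermediateField.adjoin ℚ {α i} = ⊤) → ∀ r : Fin k → ℚ,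
      (∀ i, α i ^ n = algebraMap ℚ (K i) (r i)) → IsSquare ((-1) ^ (k + 1) * (c : ℚ) * ∏ i, r i) →
      ∀ j : Fin k, (∀ i, |(discr (K j) : ℝ)| ≤ |(discr (K i) : ℝ)|) →
      ∏ i, (Nat.card {a : ClassGroup (𝓞 (K i)) // a ^ l = 1} : ℝ) ≤
        C * (∏ i, |(discr (K i) : ℝ)|) ^ (1 / 2 + ε) *
          |(discr (K j) : ℝ)| ^ (-(1 / (2 * (l : ℝ) * (n - 1))))) ∧
    (∃ C : ℝ, 0 < C ∧ ∀ l : ℕ, 1 ≤ l → ∀ (K : Type) [Field K] [NumberField K],
      Module.finrank ℚ K = n → ∀ α : K, IntermediateField.adjoin ℚ {α} = ⊤ →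
      (∃ s : ℚ, α ^ n = algebraMap ℚ K (c * s ^ 2)) →
      (Nat.card {a : ClassGroup (𝓞 K) // a ^ l = 1} : ℝ) ≤
        C * |(discr K : ℝ)| ^ (1 / 2 - 1 / (2 * (l : ℝ) * (n - 1)) + ε)) := by
  have habs : ∀ (L : Type) [Field L] [NumberField L], |(discr L : ℝ)| = ((discr L).natAbs : ℝ) := by
    intro L _ _
    rw [Nat.cast_natAbs]; push_cast; rfl
  refine ⟨fun k hk => ?_, ?_⟩
  · obtain ⟨C, hC0, hC⟩ := Pool.Agent.X9.EV.even_main n (by omega) heven k hk c hc ε hε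
    refine ⟨C, hC0, ?_⟩
    intro l hl K _ _ hK α hα r hr hsq j hj
    have h1 := hC l hl K hK α hα r hr hsq j (by
      intro i
      have := hj i
      rw [habs, habs] at this
      exact_mod_cast this)
    simp only [habs]
    exact h1
  · obtain ⟨C, hC0, hC⟩ := Pool.Agent.X9.EV.even_main n (by omega) heven 1 one_pos c hc ε hε
    refine ⟨C, hC0, ?_⟩
    rintro l hl K _ _ hK α hα ⟨s, hs⟩
    have h1 := hC l hl (fun _ => K) (fun _ => hK) (fun _ => α) (fun _ => hα)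
      (fun _ => c * s ^ 2) (fun _ => hs) ⟨c * s, by
        rw [Fin.prod_univ_one]
        ring⟩ 0 (fun _ => le_rfl)
    rw [Fin.prod_univ_one, Fin.prod_univ_one] at h1
    have hD : (0 : ℝ) < ((discr K).natAbs : ℝ) := by
      have : 0 < (discr K).natAbs := Int.natAbs_pos.mpr (discr_ne_zero K)
      exact_mod_cast this
    rw [habs]
    refine h1.trans (le_of_eq ?_)
    rw [mul_assoc, ← Real.rpow_add hD]
    congr 2
    ring

end Pool.Agent.Results.MP_695920_nt.EvenPureFieldFamilies
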