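import Pool.Agent.X22.ND10
import Pool.Agent.X22.TL
import Pool.Agent.X22.RP
import Pool.Agent.TH869.EVF.Gen

/-!
# Torsion in the class groups of the number fields of almost all members of arbitrarily thin pencils of polynomials

Nothing is used besides Mathlib in the statement.
-/

set_option autoImplicit false

namespace Pool.Agent.Results.MP_695920_nt.FewDigitPencils

open Finset Polynomial NumberField

/-- The digit number `i` (counted from the right, beginning with `0`) of `n` in base `b`. -/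
def digit (b i n : ℕ) : ℕ := n / b ^ i % b

/-- The number which arises from the number `N` with at most `K` digits in base `b`, if for every `i ∈ S`
the digit number `i` is replaced by `f i`. -/
def change (b K N : ℕ) (f : ℕ → ℕ) (S : Finset ℕ) : ℕ :=
  ∑ i ∈ range K, (if i ∈ S then f i else digit b i N) * b ^ i

open Classical in
/-- The number of the choices of `r` of `K` positions for which the number obtained by
changing the digits of `N` at the chosen positions (according to `f`) does not have the property `E`. -/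
noncomputable def exceptions (b K r N : ℕ) (f : ℕ → ℕ) (E : ℕ → Prop) : ℕ :=
  ((powersetCard r (range K)).filter (fun S => ¬ E (change b K N f S))).card

open Pool.Agent.X22.ND (op mem_op density_one absorb)
open Pool.Agent.X22.RP (HasSimple hasSimple_mod bad_card)

/-- the primes are many -/
lemma primes_many (n : ℕ) (hn : 1 ≤ n) (ε : ℝ) (hε : 0 < ε) : ∃ x₁ : ℕ, ∀ x : ℕ, x₁ ≤ x → 0 < Real.log x ∧
    (x : ℝ) / (4 * n * Real.log x) ≤ ((((range (x + 1)).filter Nat.Prime).card : ℝ) - n - √x) / n - (x : ℝ) ^ ((1 : ℝ) / 2 + 1 / 4) - (x : ℝ) ^ (1 - ε) := by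
  obtain ⟨η, hη⟩ : ∃ η : ℝ, η = min ε (1 / 4) := ⟨_, rfl⟩
  have hη0 : 0 < η := by
    rw [hη]
    exact lt_min hε (by norm_num)
  have hη1 : η ≤ ε := by
    rw [hη]
    exact min_le_left _ _
  have hη2 : η ≤ 1 / 4 := by
    rw [hη]
    exact min_le_right _ _
  obtain ⟨x₁, hx₁⟩ := absorb (80 * n) η (by positivity) hη0
  refine ⟨x₁ + 3, fun x hx => ?_⟩
  have hx3 : (3 : ℝ) ≤ x := by exact_mod_cast (by omega : 3 ≤ x)
  have hx0 : (0 : ℝ) < x := by linarith
  have hnr : (1 : ℝ) ≤ n := by exact_mod_cast hn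
  have hL : 0 < Real.log x := Real.log_pos (by linarith)
  refine ⟨hL, ?_⟩
  have h1 := hx₁ x (by omega)
  obtain ⟨L, hLdef⟩ : ∃ L, L = Real.log x := ⟨_, rfl⟩
  rw [← hLdef] at h1 hL ⊢
  obtain ⟨z, hz⟩ : ∃ z : ℝ, z = (x : ℝ) ^ (1 - η) := ⟨_, rfl⟩
  have hz0 : 0 < z := by
    rw [hz]
    positivity
  have hzx : z * (x : ℝ) ^ η = x := by
    rw [hz, ← Real.rpow_add hx0]
    simp
  have hx1 : (1 : ℝ) ≤ x := by linarith
  have hz1 : 1 ≤ z := by
    rw [hz]
    exact Real.one_le_rpow hx1 (by linarith)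
  have h2 : 80 * n * (z * L) ≤ x := by
    rw [← hzx]
    calc 80 * n * (z * L) = z * (80 * n * L) := by ring
      _ ≤ z * (x : ℝ) ^ η := by
          apply mul_le_mul_of_nonneg_left _ hz0.le
          nlinarith
  have h3 : √(x : ℝ) ≤ z := by
    rw [hz, Real.sqrt_eq_rpow]
    exact Real.rpow_le_rpow_of_exponent_le hx1 (by linarith)
  have h4 : (x : ℝ) ^ ((1 : ℝ) / 2 + 1 / 4) ≤ z := by
    rw [hz]
    exact Real.rpow_le_rpow_of_exponent_le hx1 (by linarith)
  have h5 : (x : ℝ) ^ (1 - ε) ≤ z := by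
    rw [hz]
    exact Real.rpow_le_rpow_of_exponent_le hx1 (by linarith)
  have h6 : (x : ℝ) * Real.log 2 - Real.log (x + 1) ≤ (((range (x + 1)).filter Nat.Prime).card : ℝ) * L := by
    have e1 := (Chebyshev.psi_ge x).trans (Chebyshev.psi_le_primeCounting_mul_log x)
    rw [← hLdef] at e1
    have e2 : Nat.primeCounting x = ((range (x + 1)).filter Nat.Prime).card := by
      rw [Nat.primeCounting, Nat.primeCounting', Nat.count_eq_card_filter_range]
    rw [e2] at e1
    exact e1
  have h7 : Real.log (x + 1) ≤ L + 1 := by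
    have e1 : Real.log ((x : ℝ) + 1) ≤ Real.log (x * 2) := Real.log_le_log (by linarith) (by linarith)
    rw [Real.log_mul hx0.ne' (by norm_num), ← hLdef] at e1
    have e2 := Real.log_two_lt_d9
    linarith
  have h8 := Real.log_two_gt_d9
  have hL1 : 1 ≤ L := by
    rw [hLdef, Real.le_log_iff_exp_le hx0]
    have := Real.exp_one_lt_d9
    linarith
  have h9 : L + 1 ≤ x / 40 := by
    have e1 : L * 1 ≤ n * (z * L) := by
      have : 1 ≤ n * z := by nlinarith
      nlinarith
    linarith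
  have hn0 : (0 : ℝ) < n := by linarith
  rw [div_le_iff₀ (by positivity)]
  obtain ⟨π, hπ⟩ : ∃ π : ℝ, π = (((range (x + 1)).filter Nat.Prime).card : ℝ) := ⟨_, rfl⟩
  rw [← hπ] at h6 ⊢
  have e3 : ((π - n - √(x : ℝ)) / n - (x : ℝ) ^ ((1 : ℝ) / 2 + 1 / 4) - (x : ℝ) ^ (1 - ε)) * (4 * n * L) =
      4 * (π * L) - 4 * ((n + √(x : ℝ)) * L) - 4 * n * (((x : ℝ) ^ ((1 : ℝ) / 2 + 1 / 4) + (x : ℝ) ^ (1 - ε)) * L) := by
    field_simp
    ring
  rw [e3]
  have e4 : (n + √(x : ℝ)) * L ≤ (n * z + n * z) * L := by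
    apply mul_le_mul_of_nonneg_right _ hL.le
    have : √(x : ℝ) ≤ n * z := by nlinarith
    nlinarith
  have e5 : ((x : ℝ) ^ ((1 : ℝ) / 2 + 1 / 4) + (x : ℝ) ^ (1 - ε)) * L ≤ (z + z) * L := by
    apply mul_le_mul_of_nonneg_right _ hL.le
    linarith
  have e6 : 4 * (n : ℝ) * (((x : ℝ) ^ ((1 : ℝ) / 2 + 1 / 4) + (x : ℝ) ^ (1 - ε)) * L) ≤ 4 * n * ((z + z) * L) :=
    mul_le_mul_of_nonneg_left e5 (by positivity)
  have e7 : 16 * (n * (z * L)) ≤ x / 5 := by linarith
  nlinarith

lemma map_eq_zero_iff (p : ℕ) (g : ℤ[X]) : g.map (Int.castRingHom (ZMod p)) = 0 ↔ C (p : ℤ) ∣ g := by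
  rw [C_dvd_iff_dvd_coeff, Polynomial.ext_iff]
  simp only [coeff_map, coeff_zero, eq_intCast, ZMod.intCast_zmod_eq_zero_iff_dvd]

open Classical in
/-- **Torsion in class groups in thin families.** Let a base `b ≥ 2`, a degree `n ≥ 2`, `ε > 0` and an integer `A ≥ 0` be given. There are `c, C > 0` and `y₀` such that for
all integers `r`, `K`, `y` with `2 r ≤ K` and `y ≥ y₀` the following holds.

Let `0 ≤ N < b ^ K` be an arbitrary integer, prescribe for every position `j` a digit `d j` different from the digit of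
`N` in base `b`, and let `H x` be for every `x` any set of at most `x ^ A` pairs `(f, g)` of polynomials with integral coefficients, such that `f` is monic of degree `n`, the degree of
`g` is less than `n` and at most `√x` primes `p ≤ x` divide `g`.
If one chooses `r` of the `K` positions and replaces the digits of `N` at these positions, then for all but at most a proportion
`1 / y ^ A` of the choices the number `m` obtained has the following property: for all integers `x` with
`y ≤ x ≤ exp (c r)`, all `(f, g) ∈ H x`, all number fields `F` of degree `n` generated by a zero of `f + m g`, and all `l ≥ 1` with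
`x ≤ |disc F| ^ (1 / (2 l (n - 1)) - ε)` there are at most `C |disc F| ^ (1 / 2 + ε) / x` elements of the class group of `F` killed by `l`. -/
theorem result (b n : ℕ) (hb : 2 ≤ b) (hn : 2 ≤ n) (ε : ℝ) (hε : 0 < ε) (A : ℕ) :
    ∃ c C : ℝ, 0 < c ∧ 0 < C ∧ ∃ y₀ : ℕ,
    ∀ K r y : ℕ, 2 * r ≤ K → y₀ ≤ y →
    ∀ N : ℕ, N < b ^ K → ∀ d : ℕ → ℕ, (∀ j, d j < b ∧ d j ≠ digit b j N) →
    ∀ (H : ℕ → Finset (ℤ[X] × ℤ[X])),
      (∀ x, ∀ q ∈ H x, q.1.Monic ∧ q.1.natDegree = n ∧ q.2.natDegree < n ∧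
        (((range (x + 1)).filter (fun p : ℕ => p.Prime ∧ Polynomial.C (p : ℤ) ∣ q.2)).card : ℝ) ≤ √x) →
      (∀ x, (H x).card ≤ x ^ A) →
      (exceptions b K r N d (fun m => ∀ x : ℕ, y ≤ x → (x : ℝ) ≤ Real.exp (c * r) → ∀ q ∈ H x,
        ∀ (F : Type) [Field F] [NumberField F], Module.finrank ℚ F = n →
        ∀ α : F, IntermediateField.adjoin ℚ {α} = ⊤ → aeval α (q.1 + Polynomial.C (m : ℤ) * q.2) = 0 →
        ∀ l : ℕ, 1 ≤ l → (x : ℝ) ≤ |(discr F : ℝ)| ^ (1 / (2 * (l : ℝ) * (n - 1)) - ε) →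
          (Nat.card {z : ClassGroup (𝓞 F) // z ^ l = 1} : ℝ) ≤ C * |(discr F : ℝ)| ^ (1 / 2 + ε) / x) : ℝ) ≤
        1 / (y : ℝ) ^ A * (K.choose r : ℝ) := by
  obtain ⟨c, hc, y₀, h⟩ := density_one b hb (1 / 4) (by norm_num) A A 3 (by norm_num)
  obtain ⟨C₁, hC₁, hT⟩ := Pool.Agent.X22.TL.tor_x n hn (ε / 2) (by positivity)
  obtain ⟨x₁, hx₁⟩ := primes_many n (by omega) (ε / 2) (by positivity)
  have hnr : (2 : ℝ) ≤ n := by exact_mod_cast hn
  have hn0 : (0 : ℝ) < n := by linarith
  refine ⟨c, C₁ * (4 * n * (2 / ε)), hc, by positivity, y₀ + x₁ + 2, fun K r y hrK hy N hN d hd H hH1 hH => ?_⟩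
  have h2 := h K r y hrK (by omega) N hN d hd (ℤ[X] × ℤ[X]) H (fun x _ => hH x)
    (fun x q => (range (x + 1)).filter (fun p : ℕ => p.Prime ∧ n < p ∧ ¬ Polynomial.C (p : ℤ) ∣ q.2))
    (by
      intro x q p hp
      rw [mem_filter, mem_range] at hp
      rw [mem_op]
      exact ⟨by omega, hp.2.1, by omega⟩)
    (fun q p m => ¬ HasSimple p q.1 q.2 m) (fun q p m _ => by rw [hasSimple_mod]) (fun _ => 1 - 1 / (n : ℝ)) (fun _ => by
      rw [sub_nonneg, div_le_one hn0]
      linarith)
    (by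
      intro x _ q hq p hp
      rw [mem_filter] at hp
      have hq' := hH1 x q hq
      exact bad_card p n hp.2.1 (by omega) hp.2.2.1 q.1 q.2 hq'.1 hq'.2.1 hq'.2.2.1 (fun h0 => hp.2.2.2 ((map_eq_zero_iff p q.2).1 h0)) _)
    (fun m => ∀ x : ℕ, y ≤ x → (x : ℝ) ≤ Real.exp (c * r) → ∀ q ∈ H x,
        ∀ (F : Type) [Field F] [NumberField F], Module.finrank ℚ F = n →
        ∀ α : F, IntermediateField.adjoin ℚ {α} = ⊤ → aeval α (q.1 + Polynomial.C (m : ℤ) * q.2) = 0 →
        ∀ l : ℕ, 1 ≤ l → (x : ℝ) ≤ |(discr F : ℝ)| ^ (1 / (2 * (l : ℝ) * (n - 1)) - ε) →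
          (Nat.card {z : ClassGroup (𝓞 F) // z ^ l = 1} : ℝ) ≤ C₁ * (4 * n * (2 / ε)) * |(discr F : ℝ)| ^ (1 / 2 + ε) / x)
    (by
      intro m hm x hyx hxr q hq F _ _ hF α hα h0 l hl hxl
      have hq' := hH1 x q hq
      obtain ⟨I, hI⟩ : ∃ I, I = (range (x + 1)).filter (fun p : ℕ => p.Prime ∧ n < p ∧ ¬ Polynomial.C (p : ℤ) ∣ q.2) := ⟨_, rfl⟩
      have h3 : (((I.filter (fun p => ¬ HasSimple p q.1 q.2 m)).card : ℕ) : ℝ) ≤ (1 - 1 / (n : ℝ)) * I.card + (x : ℝ) ^ ((1 : ℝ) / 2 + 1 / 4) := by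
        rw [hI]
        convert hm x hyx hxr q hq
      obtain ⟨G, hG⟩ : ∃ G, G = I.filter (fun p => HasSimple p q.1 q.2 m) := ⟨_, rfl⟩
      have h4 : (G.card : ℝ) + (I.filter (fun p => ¬ HasSimple p q.1 q.2 m)).card = I.card := by
        rw [hG]
        exact_mod_cast card_filter_add_card_filter_not (s := I) (fun p => HasSimple p q.1 q.2 m)
      have hIc : (((range (x + 1)).filter Nat.Prime).card : ℝ) - n - √x ≤ I.card := by
        have e1 : (range (x + 1)).filter Nat.Prime ⊆ I ∪ (Icc 1 n ∪ (range (x + 1)).filter (fun p : ℕ => p.Prime ∧ Polynomial.C (p : ℤ) ∣ q.2)) := by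
          intro p hp
          rw [mem_filter] at hp
          rw [mem_union, mem_union, hI, mem_filter, mem_filter, mem_Icc]
          by_cases hpn : n < p
          · by_cases hpg : Polynomial.C (p : ℤ) ∣ q.2
            · right; right
              exact ⟨hp.1, hp.2, hpg⟩
            · left
              exact ⟨hp.1, hp.2, hpn, hpg⟩
          · right; left
            exact ⟨hp.2.one_lt.le, by omega⟩
        have e2 := (card_le_card e1).trans ((card_union_le _ _).trans (Nat.add_le_add_left (card_union_le _ _) _))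
        rw [Nat.card_Icc, Nat.add_sub_cancel] at e2
        have e3 : (((range (x + 1)).filter Nat.Prime).card : ℝ) ≤ I.card + (n +
            ((range (x + 1)).filter (fun p : ℕ => p.Prime ∧ Polynomial.C (p : ℤ) ∣ q.2)).card) := by exact_mod_cast e2
        have e4 := hq'.2.2.2
        linarith
      have hx2 : 2 ≤ x := by omega
      have hx0 : (0 : ℝ) < x := by exact_mod_cast (by omega : 0 < x)
      obtain ⟨D, hD⟩ : ∃ D : ℝ, D = ((discr F).natAbs : ℝ) := ⟨_, rfl⟩
      have hDF : |(discr F : ℝ)| = D := by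
        rw [hD, Nat.cast_natAbs]
        push_cast
        rfl
      have hD3 : 3 ≤ D := by
        have := abs_discr_gt_two (K := F) (by rw [hF]; omega)
        rw [Int.abs_eq_natAbs] at this
        rw [hD]
        exact_mod_cast this
      have hD0 : 0 < D := by linarith
      rw [hDF] at hxl ⊢
      have hlr : (1 : ℝ) ≤ l := by exact_mod_cast hl
      have h5 := hT l hl F hF x hx2 (by
        rw [← hD]
        exact hxl.trans (Real.rpow_le_rpow_of_exponent_le (by linarith) (by linarith))) G (by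
        intro p hp
        rw [hG, mem_filter, hI, mem_filter, mem_range] at hp
        obtain ⟨t, ht1, ht2⟩ := hp.2
        have hP := Pool.Agent.X22.RP.deg_pencil' n q.1 q.2 hq'.1 hq'.2.1 hq'.2.2.1 (m : ℤ)
        exact ⟨hp.1.2.1, by omega, Pool.Agent.TH869.EVF.norm_of_root (q.1 + Polynomial.C (m : ℤ) * q.2) hP.1 (by rw [hF]; exact hP.2) α hα h0 p
          hp.1.2.1 t ht1 ht2⟩)
      rw [← hD] at h5
      obtain ⟨T, hTd⟩ : ∃ T : ℝ, T = (Nat.card {z : ClassGroup (𝓞 F) // z ^ l = 1} : ℝ) := ⟨_, rfl⟩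
      rw [← hTd] at h5 ⊢
      have hT0 : 0 ≤ T := by
        rw [hTd]
        positivity
      obtain ⟨hL, h6⟩ := hx₁ x (by omega)
      have h7 : (x : ℝ) / (4 * n * Real.log x) ≤ (G.card : ℝ) - (x : ℝ) ^ (1 - ε / 2) := by
        refine h6.trans ?_
        have e1 : ((((range (x + 1)).filter Nat.Prime).card : ℝ) - n - √x) / n ≤ I.card / n := by gcongr
        have e2 : (I.card : ℝ) / n = I.card - (1 - 1 / (n : ℝ)) * I.card := by
          field_simp
          ring
        linarith
      have h8 : T * ((x : ℝ) / (4 * n * Real.log x)) ≤ C₁ * D ^ (1 / 2 + ε / 2) := (mul_le_mul_of_nonneg_left h7 hT0).trans h5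
      have hxD : (x : ℝ) ≤ D := by
        refine hxl.trans ?_
        have e1 : D ^ (1 / (2 * (l : ℝ) * (n - 1)) - ε) ≤ D ^ (1 : ℝ) := by
          apply Real.rpow_le_rpow_of_exponent_le (by linarith)
          have e2 : 1 / (2 * (l : ℝ) * (n - 1)) ≤ 1 := by
            rw [div_le_one (by
              apply mul_pos (by linarith)
              linarith)]
            nlinarith
          linarith
        rwa [Real.rpow_one] at e1
      have h9 : Real.log x ≤ 2 / ε * D ^ (ε / 2) := by
        have e1 := Real.log_le_rpow_div hD0.le (show 0 < ε / 2 by positivity)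
        have e2 := Real.log_le_log hx0 hxD
        refine e2.trans (e1.trans (le_of_eq ?_))
        field_simp
      rw [le_div_iff₀ hx0]
      calc T * x = T * ((x : ℝ) / (4 * n * Real.log x)) * (4 * n * Real.log x) := by
            field_simp
        _ ≤ (C₁ * D ^ (1 / 2 + ε / 2)) * (4 * n * (2 / ε * D ^ (ε / 2))) := by gcongr
        _ = C₁ * (4 * n * (2 / ε)) * (D ^ (1 / 2 + ε / 2) * D ^ (ε / 2)) := by ring
        _ = _ := by
            rw [← Real.rpow_add hD0]
            congr 2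
            ring)
  unfold exceptions
  exact h2

end Pool.Agent.Results.MP_695920_nt.FewDigitPencils
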