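import Pool.Agent.X9.EV.Main

set_option autoImplicit false

/-!
# Torsion in the class groups of all pure fields of odd degree

Let `n ≥ 3` be odd and `ε > 0`. There is a constant `C` depending only on `n` and `ε` such that for
every `l ≥ 1` and every number field `K = ℚ(α)` of degree `n` with `α ^ n ∈ ℚ`,
`|Cl_K[l]| ≤ C * |disc K| ^ (1/2 - 1/(2 l (n-1)) + ε)`.
This is the bound which Ellenberg and Venkatesh prove for all fields of degree `n` under the
generalised Riemann hypothesis; here it holds without any hypothesis.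
-/

namespace Pool.Agent.Results.MP_695920_nt.PureFieldsGRHExponent

open NumberField

theorem result (n : ℕ) (hn : 3 ≤ n) (hodd : Odd n) (ε : ℝ) (hε : 0 < ε) :
    ∃ C : ℝ, 0 < C ∧ ∀ l : ℕ, 1 ≤ l → ∀ (K : Type) [Field K] [NumberField K],
    Module.finrank ℚ K = n → ∀ α : K, IntermediateField.adjoin ℚ {α} = ⊤ →
    (∃ r : ℚ, α ^ n = algebraMap ℚ K r) →
    (Nat.card {c : ClassGroup (𝓞 K) // c ^ l = 1} : ℝ) ≤
      C * |(discr K : ℝ)| ^ (1 / 2 - 1 / (2 * (l : ℝ) * (n - 1)) + ε) := by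
  obtain ⟨C, hC0, hC⟩ := Pool.Agent.X9.EV.main n hn hodd ε hε
  refine ⟨C, hC0, ?_⟩
  rintro l hl K _ _ hK α hα ⟨r, hr⟩
  have hd : (r.den : K) ≠ 0 := by exact_mod_cast r.den_nz
  have htop : IntermediateField.adjoin ℚ {α * (r.den : K)} = ⊤ := by
    rw [← top_le_iff, ← hα, IntermediateField.adjoin_simple_le_iff]
    have h1 : α = (α * (r.den : K)) * (algebraMap ℚ K ((r.den : ℚ)⁻¹)) := by
      rw [map_inv₀, map_natCast, mul_assoc, mul_inv_cancel₀ hd, mul_one]
    rw [h1]
    refine mul_mem ?_ (IntermediateField.algebraMap_mem _ _)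
    rw [← h1]
    exact IntermediateField.mem_adjoin_simple_self ℚ _
  refine (hC l hl K hK (α * (r.den : K)) htop).1 ⟨r.num * (r.den : ℤ) ^ (n - 1), ?_⟩
  have h2 : (r : ℚ) * (r.den : ℚ) ^ n = ((r.num * (r.den : ℤ) ^ (n - 1) : ℤ) : ℚ) := by
    have h3 : (r.den : ℚ) ^ n = (r.den : ℚ) * (r.den : ℚ) ^ (n - 1) := by
      rw [← pow_succ']; congr 1; omega
    rw [h3, ← mul_assoc, Rat.mul_den_eq_num]
    push_cast
    ring
  rw [mul_pow, hr]
  have h4 := congrArg (algebraMap ℚ K) h2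
  rw [map_mul, map_pow, map_natCast, map_intCast] at h4
  exact h4

end Pool.Agent.Results.MP_695920_nt.PureFieldsGRHExponent
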